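import Mathlib

set_option autoImplicit false

namespace Pool.Agent.Results.MP_2a9801_co.QuinticGenerator

open MvPolynomial

universe u

/-- A matching of `G`: a set of edges no two of which share an endpoint. -/
def IsMatching {V : Type} (G : SimpleGraph V) (M : Set G.edgeSet) : Prop :=
  ∀ e ∈ M, ∀ f ∈ M, e ≠ f → ∀ v : V, v ∈ (e : Sym2 V) → v ∉ (f : Sym2 V)

/-- The matching polytope of `G`: the convex hull of the incidence vectors of all matchings. -/
noncomputable def matchingPolytope {V : Type} (G : SimpleGraph V) : Set (G.edgeSet → ℝ) :=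
  convexHull ℝ {x | ∃ M : Set G.edgeSet, IsMatching G M ∧ x = M.indicator 1}

/-- The lattice points of a polytope contained in the nonnegative orthant. -/
def latticePoints {E : Type} (P : Set (E → ℝ)) : Set (E →₀ ℕ) :=
  {a | (fun e => (a e : ℝ)) ∈ P}

/-- The homomorphism `x_a ↦ t ^ a * s`, one variable `x_a` for each lattice point `a` of `P`;
the variable `t_e` is `X (some e)` and the variable `s` is `X none`. -/
noncomputable def toricMap (K : Type u) [Field K] {E : Type} (P : Set (E → ℝ)) :
    MvPolynomial (latticePoints P) K →ₐ[K] MvPolynomial (Option E) K :=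
  aeval fun a => (a.1.prod fun e n => X (some e) ^ n) * X none

/-- The toric ideal of the lattice polytope `P`. -/
noncomputable def toricIdeal (K : Type u) [Field K] {E : Type} (P : Set (E → ℝ)) :
    Ideal (MvPolynomial (latticePoints P) K) :=
  RingHom.ker (toricMap K P)

section General

variable {K : Type u} [Field K] {E : Type} {P : Set (E → ℝ)}

/-- exponent vector of the image of a variable -/
noncomputable def psi (a : latticePoints P) : Option E →₀ ℕ :=
  a.1.mapDomain some + Finsupp.single none 1

/-- exponent vector of the image of a monomial -/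
noncomputable def img (m : latticePoints P →₀ ℕ) : Option E →₀ ℕ :=
  m.sum fun a n => n • psi a

lemma psi_some (a : latticePoints P) (e : E) : psi a (some e) = a.1 e := by
  unfold psi
  rw [Finsupp.add_apply, Finsupp.mapDomain_apply (Option.some_injective E)]
  simp

lemma psi_none (a : latticePoints P) : psi a none = 1 := by
  unfold psi
  rw [Finsupp.add_apply, Finsupp.mapDomain_of_notMem_range _ _ (by simp)]
  simp

lemma img_some (m : latticePoints P →₀ ℕ) (e : E) :
    img m (some e) = m.sum fun a n => n * a.1 e := by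
  unfold img
  rw [Finsupp.sum_apply]
  simp [psi_some]

lemma img_none (m : latticePoints P →₀ ℕ) :
    img m none = m.sum fun _ n => n := by
  unfold img
  rw [Finsupp.sum_apply]
  simp [psi_none]

lemma toricMap_X (a : latticePoints P) :
    ((a.1.prod fun e n => X (some e) ^ n) * X none : MvPolynomial (Option E) K)
      = monomial (psi a) 1 := by
  have h1 : (a.1.prod fun e n => (X (some e) : MvPolynomial (Option E) K) ^ n)
      = monomial (a.1.mapDomain some) 1 := by
    have h2 : (rename some (monomial a.1 (1 : K)) : MvPolynomial (Option E) K)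
        = monomial (a.1.mapDomain some) 1 := rename_monomial _ _ _
    rw [← h2, monomial_eq, map_mul, Finsupp.prod, Finsupp.prod, map_prod]
    simp
  rw [h1]
  have h3 : (X none : MvPolynomial (Option E) K) = monomial (Finsupp.single none 1) 1 := rfl
  rw [h3, monomial_mul, one_mul]
  rfl

lemma toricMap_monomial (m : latticePoints P →₀ ℕ) (c : K) :
    toricMap K P (monomial m c) = monomial (img m) c := by
  unfold toricMap
  rw [aeval_monomial]
  have h : ∀ a : latticePoints P,
      ((a.1.prod fun e n => X (some e) ^ n) * X none : MvPolynomial (Option E) K)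
      = monomial (psi a) 1 := toricMap_X
  simp only [h]
  rw [Finsupp.prod]
  have h2 : ∏ a ∈ m.support, (monomial (psi a) (1 : K)) ^ m a
      = monomial (img m) 1 := by
    rw [img, Finsupp.sum]
    simp only [monomial_pow, one_pow]
    exact (monomial_sum_one _ _).symm
  rw [h2]
  simp [algebraMap_eq, C_mul_monomial]

/-- A monomial alone in its fibre has coefficient zero in every element of the toric ideal. -/
lemma coeff_eq_zero_of_isolated (p : MvPolynomial (latticePoints P) K)
    (hp : p ∈ toricIdeal K P) (m : latticePoints P →₀ ℕ)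
    (hm : ∀ m', img m' = img m → m' = m) : coeff m p = 0 := by
  have h0 : toricMap K P p = 0 := hp
  have h1 : toricMap K P p = ∑ m' ∈ p.support, monomial (img m') (coeff m' p) := by
    conv_lhs => rw [p.as_sum]
    rw [map_sum]
    simp only [toricMap_monomial]
  have h2 : coeff (img m) (toricMap K P p) = coeff m p := by
    classical
    rw [h1, coeff_sum, Finset.sum_eq_single m]
    · rw [coeff_monomial, if_pos rfl]
    · intro b _ hne
      rw [coeff_monomial, if_neg]
      intro h
      exact hne (hm b h)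
    · intro h
      rw [notMem_support_iff.mp h]
      simp
  rw [← h2, h0]
  simp

/-- polynomials having no monomial dividing `x ^ u` -/
def avoid (σ : Type) (K : Type u) [Field K] (u : σ →₀ ℕ) : Ideal (MvPolynomial σ K) where
  carrier := {q | ∀ y ≤ u, coeff y q = 0}
  add_mem' := by
    intro a b ha hb y hy
    rw [coeff_add, ha y hy, hb y hy, add_zero]
  zero_mem' := by
    intro y _
    simp
  smul_mem' := by
    classical
    intro c x hx y hy
    rw [smul_eq_mul, coeff_mul]
    apply Finset.sum_eq_zero
    intro z hz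
    have hz' : z.1 + z.2 = y := Finset.HasAntidiagonal.mem_antidiagonal.mp hz
    have h2 : z.2 ≤ u := le_trans (by rw [← hz']; exact le_add_self) hy
    rw [hx z.2 h2, mul_zero]

theorem exists_degree_ge (u v : latticePoints P →₀ ℕ) (huv : img u = img v) (hne : v ≠ u)
    (hiso : ∀ m, m ≤ u → m ≠ u → ∀ m', img m' = img m → m' = m)
    (S : Set (MvPolynomial (latticePoints P) K)) (hS : Ideal.span S = toricIdeal K P) :
    ∃ p ∈ S, (u.sum fun _ n => n) ≤ p.totalDegree := by
  classical
  by_contra hcon
  push Not at hcon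
  have h1 : Ideal.span S ≤ avoid (latticePoints P) K u := by
    rw [Ideal.span_le]
    intro p hp y hy
    by_cases hyu : y = u
    · subst hyu
      by_contra hc
      have := le_totalDegree (mem_support_iff.mpr hc)
      exact absurd (hcon p hp) (not_lt.mpr this)
    · apply coeff_eq_zero_of_isolated p _ y (hiso y hy hyu)
      rw [← hS]
      exact Ideal.subset_span hp
  have h2 : (monomial u (1 : K) - monomial v 1) ∈ toricIdeal K P := by
    show toricMap K P _ = 0
    rw [map_sub, toricMap_monomial, toricMap_monomial, huv, sub_self]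
  rw [← hS] at h2
  have h3 := h1 h2 u le_rfl
  rw [coeff_sub, coeff_monomial, coeff_monomial, if_pos rfl, if_neg hne] at h3
  simp at h3

end General

/-! ### The graph: the Petersen graph together with one more edge -/

/-- the endpoints of the sixteen edges -/
def edgeOf : Fin 16 → Sym2 (Fin 10) :=
  ![s(0,1), s(0,2), s(0,3), s(1,5), s(1,7), s(2,3), s(2,4), s(2,9), s(3,6), s(3,8), s(4,5),
    s(4,6), s(5,8), s(6,7), s(7,9), s(8,9)]

/-- The Petersen graph together with one more edge `s(2,3)`. -/
def G : SimpleGraph (Fin 10) := SimpleGraph.fromEdgeSet (Set.range edgeOf)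

lemma edgeOf_mem (j : Fin 16) : edgeOf j ∈ G.edgeSet := by
  unfold G
  rw [SimpleGraph.edgeSet_fromEdgeSet]
  refine ⟨⟨j, rfl⟩, ?_⟩
  revert j
  decide

/-- the edges as elements of the edge set -/
def ed (j : Fin 16) : G.edgeSet := ⟨edgeOf j, edgeOf_mem j⟩

lemma edgeOf_injective : Function.Injective edgeOf := by decide

lemma ed_injective : Function.Injective ed := by
  intro i j h
  exact edgeOf_injective (congrArg Subtype.val h)

lemma ed_surjective : Function.Surjective ed := by
  rintro ⟨e, he⟩
  have he' : e ∈ (SimpleGraph.fromEdgeSet (Set.range edgeOf)).edgeSet := he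
  rw [SimpleGraph.edgeSet_fromEdgeSet] at he'
  obtain ⟨⟨j, hj⟩, -⟩ := he'
  exact ⟨j, Subtype.ext hj⟩

/-- edges at a vertex -/
def inc (v : Fin 10) : Finset (Fin 16) := Finset.univ.filter fun j => v ∈ edgeOf j

/-- the eight perfect matchings -/
def pm : Fin 8 → Finset (Fin 16) :=
  ![{0,5,10,13,15}, {0,5,11,12,14}, {0,6,8,12,14}, {0,7,9,10,13}, {1,3,9,11,14}, {1,4,8,10,15},
    {2,3,6,13,15}, {2,4,7,11,12}]

/-- the incidence vector of a perfect matching -/
noncomputable def q (i : Fin 8) : G.edgeSet →₀ ℕ := ∑ j ∈ pm i, Finsupp.single (ed j) 1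

lemma q_ed (i : Fin 8) (k : Fin 16) : q i (ed k) = if k ∈ pm i then 1 else 0 := by
  unfold q
  rw [Finsupp.finsetSum_apply]
  simp only [Finsupp.single_apply, ed_injective.eq_iff]
  simp

lemma pm_matching : ∀ (i : Fin 8) (j k : Fin 16), j ∈ pm i → k ∈ pm i → j ≠ k →
    ∀ v : Fin 10, v ∈ edgeOf j → v ∉ edgeOf k := by decide

lemma q_mem (i : Fin 8) : q i ∈ latticePoints (matchingPolytope G) := by
  apply subset_convexHull
  refine ⟨ed '' (pm i : Set (Fin 16)), ?_, ?_⟩
  · rintro _ ⟨j, hj, rfl⟩ _ ⟨k, hk, rfl⟩ hne v hv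
    refine pm_matching i j k hj hk ?_ v hv
    rintro rfl
    exact hne rfl
  · funext e
    obtain ⟨k, rfl⟩ := ed_surjective e
    rw [q_ed]
    by_cases hk : k ∈ pm i
    · rw [if_pos hk, Set.indicator_of_mem]
      · simp
      · exact ⟨k, hk, rfl⟩
    · rw [if_neg hk, Set.indicator_of_notMem]
      · simp
      · rintro ⟨j, hj, hjk⟩
        rw [ed_injective hjk] at hj
        exact hk hj

/-- a perfect matching as a lattice point -/
noncomputable def pt (i : Fin 8) : latticePoints (matchingPolytope G) := ⟨q i, q_mem i⟩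

lemma pt_injective : Function.Injective pt := by
  intro i j h
  have h1 : ∀ k, q i (ed k) = q j (ed k) := by
    intro k
    have : (pt i).1 = (pt j).1 := by rw [h]
    exact DFunLike.congr_fun this (ed k)
  simp only [q_ed] at h1
  clear h
  revert i j
  decide

lemma degree_le (a : latticePoints (matchingPolytope G)) (v : Fin 10) :
    ∑ j ∈ inc v, a.1 (ed j) ≤ 1 := by
  have h : ∀ x ∈ matchingPolytope G, ∑ j ∈ inc v, x (ed j) ≤ 1 := by
    intro x hx
    have hconv : Convex ℝ {x : G.edgeSet → ℝ | ∑ j ∈ inc v, x (ed j) ≤ 1} := by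
      apply convex_halfSpace_le
      constructor
      · intro x y
        simp [Finset.sum_add_distrib]
      · intro c x
        simp [Finset.mul_sum]
    refine convexHull_min ?_ hconv hx
    rintro _ ⟨M, hM, rfl⟩
    show ∑ j ∈ inc v, M.indicator (1 : G.edgeSet → ℝ) (ed j) ≤ 1
    by_cases hex : ∃ j ∈ inc v, ed j ∈ M
    · obtain ⟨j, hj, hjM⟩ := hex
      rw [Finset.sum_eq_single_of_mem j hj]
      · rw [Set.indicator_of_mem hjM]
        simp
      · intro k hk hkj
        apply Set.indicator_of_notMem
        intro hkM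
        refine hM _ hkM _ hjM ?_ v ?_ ?_
        · intro he
          exact hkj (ed_injective he)
        · exact (Finset.mem_filter.mp hk).2
        · exact (Finset.mem_filter.mp hj).2
    · push Not at hex
      rw [Finset.sum_eq_zero]
      · exact zero_le_one
      · intro j hj
        exact Set.indicator_of_notMem (hex j hj) _
  have h2 := h _ a.2
  have h3 : ((∑ j ∈ inc v, a.1 (ed j) : ℕ) : ℝ) ≤ ((1 : ℕ) : ℝ) := by
    push_cast
    exact h2
  exact_mod_cast h3

lemma classify (a : Fin 16 → ℕ) (h : ∀ v, ∑ j ∈ inc v, a j = 1) :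
    ∃ i, ∀ j, a j = if j ∈ pm i then 1 else 0 := by
  have e0 : inc 0 = {0, 1, 2} := by decide
  have e1 : inc 1 = {0, 3, 4} := by decide
  have e2 : inc 2 = {1, 5, 6, 7} := by decide
  have e3 : inc 3 = {2, 5, 8, 9} := by decide
  have e4 : inc 4 = {6, 10, 11} := by decide
  have e5 : inc 5 = {3, 10, 12} := by decide
  have e6 : inc 6 = {8, 11, 13} := by decide
  have e7 : inc 7 = {4, 13, 14} := by decide
  have e8 : inc 8 = {9, 12, 15} := by decide
  have e9 : inc 9 = {7, 14, 15} := by decide
  have h0 : a 0 + (a 1 + a 2) = 1 := by have := h 0; rw [e0] at this; simpa using this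
  have h1 : a 0 + (a 3 + a 4) = 1 := by have := h 1; rw [e1] at this; simpa using this
  have h2 : a 1 + (a 5 + (a 6 + a 7)) = 1 := by have := h 2; rw [e2] at this; simpa using this
  have h3 : a 2 + (a 5 + (a 8 + a 9)) = 1 := by have := h 3; rw [e3] at this; simpa using this
  have h4 : a 6 + (a 10 + a 11) = 1 := by have := h 4; rw [e4] at this; simpa using this
  have h5 : a 3 + (a 10 + a 12) = 1 := by have := h 5; rw [e5] at this; simpa using this
  have h6 : a 8 + (a 11 + a 13) = 1 := by have := h 6; rw [e6] at this; simpa using this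
  have h7 : a 4 + (a 13 + a 14) = 1 := by have := h 7; rw [e7] at this; simpa using this
  have h8 : a 9 + (a 12 + a 15) = 1 := by have := h 8; rw [e8] at this; simpa using this
  have h9 : a 7 + (a 14 + a 15) = 1 := by have := h 9; rw [e9] at this; simpa using this
  clear h e0 e1 e2 e3 e4 e5 e6 e7 e8 e9
  have ha : a = ![a 0, a 1, a 2, a 3, a 4, a 5, a 6, a 7, a 8, a 9, a 10, a 11, a 12, a 13, a 14,
      a 15] := by
    funext j
    fin_cases j <;> rfl
  have c : (a 0 = 1 ∧ a 1 = 0 ∧ a 2 = 0) ∨ (a 0 = 0 ∧ a 1 = 1 ∧ a 2 = 0) ∨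
      (a 0 = 0 ∧ a 1 = 0 ∧ a 2 = 1) := by omega
  rcases c with ⟨c0, c1, c2⟩ | ⟨c0, c1, c2⟩ | ⟨c0, c1, c2⟩
  · have c' : (a 5 = 1 ∧ a 6 = 0 ∧ a 7 = 0) ∨ (a 5 = 0 ∧ a 6 = 1 ∧ a 7 = 0) ∨
      (a 5 = 0 ∧ a 6 = 0 ∧ a 7 = 1) := by omega
    rcases c' with ⟨c5, c6, c7⟩ | ⟨c5, c6, c7⟩ | ⟨c5, c6, c7⟩
    · have c10 : a 10 = 1 ∨ a 10 = 0 := by omega
      rcases c10 with c10 | c10
      · refine ⟨0, ?_⟩
        rw [ha, show a 0 = 1 by omega, show a 1 = 0 by omega, show a 2 = 0 by omega,
          show a 3 = 0 by omega, show a 4 = 0 by omega, show a 5 = 1 by omega, show a 6 = 0 by omega,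
          show a 7 = 0 by omega, show a 8 = 0 by omega, show a 9 = 0 by omega, show a 10 = 1 by omega,
          show a 11 = 0 by omega, show a 12 = 0 by omega, show a 13 = 1 by omega, show a 14 = 0 by omega,
          show a 15 = 1 by omega]
        decide
      · refine ⟨1, ?_⟩
        rw [ha, show a 0 = 1 by omega, show a 1 = 0 by omega, show a 2 = 0 by omega,
          show a 3 = 0 by omega, show a 4 = 0 by omega, show a 5 = 1 by omega, show a 6 = 0 by omega,
          show a 7 = 0 by omega, show a 8 = 0 by omega, show a 9 = 0 by omega, show a 10 = 0 by omega,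
          show a 11 = 1 by omega, show a 12 = 1 by omega, show a 13 = 0 by omega, show a 14 = 1 by omega,
          show a 15 = 0 by omega]
        decide
    · refine ⟨2, ?_⟩
      rw [ha, show a 0 = 1 by omega, show a 1 = 0 by omega, show a 2 = 0 by omega,
        show a 3 = 0 by omega, show a 4 = 0 by omega, show a 5 = 0 by omega, show a 6 = 1 by omega,
        show a 7 = 0 by omega, show a 8 = 1 by omega, show a 9 = 0 by omega, show a 10 = 0 by omega,
        show a 11 = 0 by omega, show a 12 = 1 by omega, show a 13 = 0 by omega, show a 14 = 1 by omega,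
        show a 15 = 0 by omega]
      decide
    · refine ⟨3, ?_⟩
      rw [ha, show a 0 = 1 by omega, show a 1 = 0 by omega, show a 2 = 0 by omega,
        show a 3 = 0 by omega, show a 4 = 0 by omega, show a 5 = 0 by omega, show a 6 = 0 by omega,
        show a 7 = 1 by omega, show a 8 = 0 by omega, show a 9 = 1 by omega, show a 10 = 1 by omega,
        show a 11 = 0 by omega, show a 12 = 0 by omega, show a 13 = 1 by omega, show a 14 = 0 by omega,
        show a 15 = 0 by omega]
      decide
  · have c3 : (a 3 = 1 ∧ a 4 = 0) ∨ (a 3 = 0 ∧ a 4 = 1) := by omega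
    rcases c3 with ⟨c3, c4⟩ | ⟨c3, c4⟩
    · refine ⟨4, ?_⟩
      rw [ha, show a 0 = 0 by omega, show a 1 = 1 by omega, show a 2 = 0 by omega,
        show a 3 = 1 by omega, show a 4 = 0 by omega, show a 5 = 0 by omega, show a 6 = 0 by omega,
        show a 7 = 0 by omega, show a 8 = 0 by omega, show a 9 = 1 by omega, show a 10 = 0 by omega,
        show a 11 = 1 by omega, show a 12 = 0 by omega, show a 13 = 0 by omega, show a 14 = 1 by omega,
        show a 15 = 0 by omega]
      decide
    · refine ⟨5, ?_⟩
      rw [ha, show a 0 = 0 by omega, show a 1 = 1 by omega, show a 2 = 0 by omega,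
        show a 3 = 0 by omega, show a 4 = 1 by omega, show a 5 = 0 by omega, show a 6 = 0 by omega,
        show a 7 = 0 by omega, show a 8 = 1 by omega, show a 9 = 0 by omega, show a 10 = 1 by omega,
        show a 11 = 0 by omega, show a 12 = 0 by omega, show a 13 = 0 by omega, show a 14 = 0 by omega,
        show a 15 = 1 by omega]
      decide
  · have c3 : (a 3 = 1 ∧ a 4 = 0) ∨ (a 3 = 0 ∧ a 4 = 1) := by omega
    rcases c3 with ⟨c3, c4⟩ | ⟨c3, c4⟩
    · refine ⟨6, ?_⟩
      rw [ha, show a 0 = 0 by omega, show a 1 = 0 by omega, show a 2 = 1 by omega,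
        show a 3 = 1 by omega, show a 4 = 0 by omega, show a 5 = 0 by omega, show a 6 = 1 by omega,
        show a 7 = 0 by omega, show a 8 = 0 by omega, show a 9 = 0 by omega, show a 10 = 0 by omega,
        show a 11 = 0 by omega, show a 12 = 0 by omega, show a 13 = 1 by omega, show a 14 = 0 by omega,
        show a 15 = 1 by omega]
      decide
    · refine ⟨7, ?_⟩
      rw [ha, show a 0 = 0 by omega, show a 1 = 0 by omega, show a 2 = 1 by omega,
        show a 3 = 0 by omega, show a 4 = 1 by omega, show a 5 = 0 by omega, show a 6 = 0 by omega,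
        show a 7 = 1 by omega, show a 8 = 0 by omega, show a 9 = 0 by omega, show a 10 = 0 by omega,
        show a 11 = 1 by omega, show a 12 = 1 by omega, show a 13 = 0 by omega, show a 14 = 0 by omega,
        show a 15 = 0 by omega]
      decide

/-- sums over the support of an exponent vector concentrated on the eight perfect matchings -/
lemma sum_eq (m : latticePoints (matchingPolytope G) →₀ ℕ)
    (hm : ∀ a ∈ m.support, ∃ i, a = pt i)
    (g : latticePoints (matchingPolytope G) → ℕ → ℕ) (hg : ∀ a, g a 0 = 0) :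
    m.sum g = ∑ i : Fin 8, g (pt i) (m (pt i)) := by
  classical
  have h1 : m.support ⊆ Finset.univ.map ⟨pt, pt_injective⟩ := by
    intro a ha
    obtain ⟨i, rfl⟩ := hm a ha
    simp
  rw [Finsupp.sum_of_support_subset m h1 g (fun a _ => hg a), Finset.sum_map]
  rfl

/-- if `img m = img m'` and `m` is concentrated on perfect matchings then so is `m'` -/
lemma supp_of_img_eq (m m' : latticePoints (matchingPolytope G) →₀ ℕ)
    (hm : ∀ a ∈ m.support, ∃ i, a = pt i) (h : img m' = img m) :
    ∀ a ∈ m'.support, ∃ i, a = pt i := by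
  have hdeg : (m'.sum fun _ n => n) = m.sum fun _ n => n := by
    rw [← img_none, ← img_none, h]
  have hedge : ∀ j, (m'.sum fun a n => n * a.1 (ed j)) = m.sum fun a n => n * a.1 (ed j) := by
    intro j
    rw [← img_some, ← img_some, h]
  have hpt : ∀ i v, ∑ j ∈ inc v, (pt i).1 (ed j) = 1 := by
    intro i v
    show ∑ j ∈ inc v, q i (ed j) = 1
    simp only [q_ed]
    revert i v
    decide
  have hv : ∀ v, (m'.sum fun a n => n * ∑ j ∈ inc v, a.1 (ed j)) = m'.sum fun _ n => n := by
    intro v
    have h1 : (m'.sum fun a n => n * ∑ j ∈ inc v, a.1 (ed j))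
        = ∑ j ∈ inc v, m'.sum fun a n => n * a.1 (ed j) := by
      simp only [Finsupp.sum, Finset.mul_sum]
      exact Finset.sum_comm
    have h2 : (m.sum fun a n => n * ∑ j ∈ inc v, a.1 (ed j))
        = ∑ j ∈ inc v, m.sum fun a n => n * a.1 (ed j) := by
      simp only [Finsupp.sum, Finset.mul_sum]
      exact Finset.sum_comm
    rw [h1, Finset.sum_congr rfl (fun j _ => hedge j), ← h2, hdeg]
    apply Finset.sum_congr rfl
    intro a ha
    obtain ⟨i, rfl⟩ := hm a ha
    show m (pt i) * _ = m (pt i)
    rw [hpt, mul_one]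
  intro a ha
  have h3 : ∀ v, ∑ j ∈ inc v, a.1 (ed j) = 1 := by
    intro v
    have h4 := hv v
    have h5 : ∀ b ∈ m'.support, m' b * ∑ j ∈ inc v, b.1 (ed j) ≤ m' b := by
      intro b _
      calc m' b * ∑ j ∈ inc v, b.1 (ed j) ≤ m' b * 1 := Nat.mul_le_mul_left _ (degree_le b v)
        _ = m' b := mul_one _
    have h6 := (Finset.sum_eq_sum_iff_of_le h5).mp h4 a ha
    have h7 : 0 < m' a := Nat.pos_of_ne_zero (Finsupp.mem_support_iff.mp ha)
    exact Nat.eq_of_mul_eq_mul_left h7 (by rw [h6, mul_one])
  obtain ⟨i, hi⟩ := classify (fun j => a.1 (ed j)) h3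
  refine ⟨i, Subtype.ext (Finsupp.ext ?_)⟩
  intro e
  obtain ⟨j, rfl⟩ := ed_surjective e
  show a.1 (ed j) = q i (ed j)
  rw [q_ed]
  exact hi j

/-- the exponent vector `2 P₀ + P₂ + P₄ + P₇` -/
noncomputable def uu : latticePoints (matchingPolytope G) →₀ ℕ :=
  Finsupp.single (pt 0) 2 + Finsupp.single (pt 2) 1 + Finsupp.single (pt 4) 1
    + Finsupp.single (pt 7) 1

/-- the exponent vector `2 P₁ + P₃ + P₅ + P₆` -/
noncomputable def vv : latticePoints (matchingPolytope G) →₀ ℕ :=
  Finsupp.single (pt 1) 2 + Finsupp.single (pt 3) 1 + Finsupp.single (pt 5) 1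
    + Finsupp.single (pt 6) 1

lemma uu_pt (i : Fin 8) : uu (pt i) = ![2, 0, 1, 0, 1, 0, 0, 1] i := by
  unfold uu
  simp only [Finsupp.add_apply, Finsupp.single_apply, pt_injective.eq_iff]
  revert i
  decide

lemma vv_pt (i : Fin 8) : vv (pt i) = ![0, 2, 0, 1, 0, 1, 1, 0] i := by
  unfold vv
  simp only [Finsupp.add_apply, Finsupp.single_apply, pt_injective.eq_iff]
  revert i
  decide

lemma uu_supp : ∀ a ∈ uu.support, ∃ i, a = pt i := by
  classical
  intro a ha
  by_contra hcon
  push Not at hcon
  rw [Finsupp.mem_support_iff] at ha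
  apply ha
  unfold uu
  simp only [Finsupp.add_apply, Finsupp.single_apply]
  simp [fun i => (hcon i).symm]

lemma vv_supp : ∀ a ∈ vv.support, ∃ i, a = pt i := by
  classical
  intro a ha
  by_contra hcon
  push Not at hcon
  rw [Finsupp.mem_support_iff] at ha
  apply ha
  unfold vv
  simp only [Finsupp.add_apply, Finsupp.single_apply]
  simp [fun i => (hcon i).symm]

lemma img_none' (m : latticePoints (matchingPolytope G) →₀ ℕ)
    (hm : ∀ a ∈ m.support, ∃ i, a = pt i) :
    img m none = ∑ i : Fin 8, m (pt i) := by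
  rw [img_none, sum_eq m hm _ (fun _ => rfl)]

lemma img_some' (m : latticePoints (matchingPolytope G) →₀ ℕ)
    (hm : ∀ a ∈ m.support, ∃ i, a = pt i) (j : Fin 16) :
    img m (some (ed j)) = ∑ i : Fin 8, m (pt i) * (if j ∈ pm i then 1 else 0) := by
  rw [img_some, sum_eq m hm _ (fun _ => by simp)]
  apply Finset.sum_congr rfl
  intro i _
  show m (pt i) * q i (ed j) = _
  rw [q_ed]

lemma img_uu_eq : img uu = img vv := by
  ext o
  rcases o with _ | e
  · rw [img_none' uu uu_supp, img_none' vv vv_supp]
    simp only [uu_pt, vv_pt]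
    decide
  · obtain ⟨j, rfl⟩ := ed_surjective e
    rw [img_some' uu uu_supp, img_some' vv vv_supp]
    simp only [uu_pt, vv_pt]
    revert j
    decide

lemma isolated (m : latticePoints (matchingPolytope G) →₀ ℕ) (hmu : m ≤ uu) (hne : m ≠ uu)
    (m' : latticePoints (matchingPolytope G) →₀ ℕ) (h : img m' = img m) : m' = m := by
  have hm : ∀ a ∈ m.support, ∃ i, a = pt i := by
    intro a ha
    apply uu_supp
    rw [Finsupp.mem_support_iff] at ha ⊢
    have := hmu a
    omega
  have hm' := supp_of_img_eq m m' hm h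
  have hE : ∀ j : Fin 16, ∑ i : Fin 8, m' (pt i) * (if j ∈ pm i then 1 else 0)
      = ∑ i : Fin 8, m (pt i) * (if j ∈ pm i then 1 else 0) := by
    intro j
    rw [← img_some' m' hm', ← img_some' m hm, h]
  have hu : ∀ i, m (pt i) ≤ ![2, 0, 1, 0, 1, 0, 0, 1] i := by
    intro i
    rw [← uu_pt]
    exact hmu (pt i)
  have u0 : m (pt 0) ≤ 2 := hu 0
  have u1 : m (pt 1) ≤ 0 := hu 1
  have u2 : m (pt 2) ≤ 1 := hu 2
  have u3 : m (pt 3) ≤ 0 := hu 3
  have u4 : m (pt 4) ≤ 1 := hu 4
  have u5 : m (pt 5) ≤ 0 := hu 5
  have u6 : m (pt 6) ≤ 0 := hu 6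
  have u7 : m (pt 7) ≤ 1 := hu 7
  have hnot : ¬ (m (pt 0) = 2 ∧ m (pt 2) = 1 ∧ m (pt 4) = 1 ∧ m (pt 7) = 1) := by
    rintro ⟨g0, g2, g4, g7⟩
    apply hne
    have g : ∀ i, m (pt i) = uu (pt i) := by
      intro i
      rw [uu_pt]
      fin_cases i
      · exact g0
      · exact Nat.le_zero.mp u1
      · exact g2
      · exact Nat.le_zero.mp u3
      · exact g4
      · exact Nat.le_zero.mp u5
      · exact Nat.le_zero.mp u6
      · exact g7
    ext a
    by_cases ha : ∃ i, a = pt i
    · obtain ⟨i, rfl⟩ := ha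
      exact g i
    · have z1 : m a = 0 := by
        by_contra hc
        exact ha (hm a (Finsupp.mem_support_iff.mpr hc))
      have z2 : uu a = 0 := by
        by_contra hc
        exact ha (uu_supp a (Finsupp.mem_support_iff.mpr hc))
      rw [z1, z2]
  have E0 : m' (pt 0) + m' (pt 1) + m' (pt 2) + m' (pt 3)
      = m (pt 0) + m (pt 1) + m (pt 2) + m (pt 3) := by
    have := hE 0
    rw [Fin.sum_univ_eight, Fin.sum_univ_eight] at this
    simpa [pm] using this
  have E1 : m' (pt 4) + m' (pt 5)
      = m (pt 4) + m (pt 5) := by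
    have := hE 1
    rw [Fin.sum_univ_eight, Fin.sum_univ_eight] at this
    simpa [pm] using this
  have E2 : m' (pt 6) + m' (pt 7)
      = m (pt 6) + m (pt 7) := by
    have := hE 2
    rw [Fin.sum_univ_eight, Fin.sum_univ_eight] at this
    simpa [pm] using this
  have E3 : m' (pt 4) + m' (pt 6)
      = m (pt 4) + m (pt 6) := by
    have := hE 3
    rw [Fin.sum_univ_eight, Fin.sum_univ_eight] at this
    simpa [pm] using this
  have E4 : m' (pt 5) + m' (pt 7)
      = m (pt 5) + m (pt 7) := by
    have := hE 4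
    rw [Fin.sum_univ_eight, Fin.sum_univ_eight] at this
    simpa [pm] using this
  have E5 : m' (pt 0) + m' (pt 1)
      = m (pt 0) + m (pt 1) := by
    have := hE 5
    rw [Fin.sum_univ_eight, Fin.sum_univ_eight] at this
    simpa [pm] using this
  have E6 : m' (pt 2) + m' (pt 6)
      = m (pt 2) + m (pt 6) := by
    have := hE 6
    rw [Fin.sum_univ_eight, Fin.sum_univ_eight] at this
    simpa [pm] using this
  have E7 : m' (pt 3) + m' (pt 7)
      = m (pt 3) + m (pt 7) := by
    have := hE 7
    rw [Fin.sum_univ_eight, Fin.sum_univ_eight] at this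
    simpa [pm] using this
  have E8 : m' (pt 2) + m' (pt 5)
      = m (pt 2) + m (pt 5) := by
    have := hE 8
    rw [Fin.sum_univ_eight, Fin.sum_univ_eight] at this
    simpa [pm] using this
  have E9 : m' (pt 3) + m' (pt 4)
      = m (pt 3) + m (pt 4) := by
    have := hE 9
    rw [Fin.sum_univ_eight, Fin.sum_univ_eight] at this
    simpa [pm] using this
  have E10 : m' (pt 0) + m' (pt 3) + m' (pt 5)
      = m (pt 0) + m (pt 3) + m (pt 5) := by
    have := hE 10
    rw [Fin.sum_univ_eight, Fin.sum_univ_eight] at this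
    simpa [pm] using this
  have E11 : m' (pt 1) + m' (pt 4) + m' (pt 7)
      = m (pt 1) + m (pt 4) + m (pt 7) := by
    have := hE 11
    rw [Fin.sum_univ_eight, Fin.sum_univ_eight] at this
    simpa [pm] using this
  have E12 : m' (pt 1) + m' (pt 2) + m' (pt 7)
      = m (pt 1) + m (pt 2) + m (pt 7) := by
    have := hE 12
    rw [Fin.sum_univ_eight, Fin.sum_univ_eight] at this
    simpa [pm] using this
  have E13 : m' (pt 0) + m' (pt 3) + m' (pt 6)
      = m (pt 0) + m (pt 3) + m (pt 6) := by
    have := hE 13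
    rw [Fin.sum_univ_eight, Fin.sum_univ_eight] at this
    simpa [pm] using this
  have E14 : m' (pt 1) + m' (pt 2) + m' (pt 4)
      = m (pt 1) + m (pt 2) + m (pt 4) := by
    have := hE 14
    rw [Fin.sum_univ_eight, Fin.sum_univ_eight] at this
    simpa [pm] using this
  have E15 : m' (pt 0) + m' (pt 5) + m' (pt 6)
      = m (pt 0) + m (pt 5) + m (pt 6) := by
    have := hE 15
    rw [Fin.sum_univ_eight, Fin.sum_univ_eight] at this
    simpa [pm] using this
  clear hE hu
  have r0 : m' (pt 0) = m (pt 0) := by omega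
  have r1 : m' (pt 1) = m (pt 1) := by omega
  have r2 : m' (pt 2) = m (pt 2) := by omega
  have r3 : m' (pt 3) = m (pt 3) := by omega
  have r4 : m' (pt 4) = m (pt 4) := by omega
  have r5 : m' (pt 5) = m (pt 5) := by omega
  have r6 : m' (pt 6) = m (pt 6) := by omega
  have r7 : m' (pt 7) = m (pt 7) := by omega
  have r : ∀ i, m' (pt i) = m (pt i) := by
    intro i
    fin_cases i
    · exact r0
    · exact r1
    · exact r2
    · exact r3
    · exact r4
    · exact r5
    · exact r6
    · exact r7
  ext a
  by_cases ha : ∃ i, a = pt i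
  · obtain ⟨i, rfl⟩ := ha
    exact r i
  · have z1 : m a = 0 := by
      by_contra hc
      exact ha (hm a (Finsupp.mem_support_iff.mpr hc))
    have z2 : m' a = 0 := by
      by_contra hc
      exact ha (hm' a (Finsupp.mem_support_iff.mpr hc))
    rw [z1, z2]

/-- There is a graph on ten vertices for which every generating set of the toric ideal of the
matching polytope, over every field, contains an element of degree at least five. -/
theorem result :
    ∃ G : SimpleGraph (Fin 10), ∀ (K : Type u) [Field K]
      (S : Set (MvPolynomial (latticePoints (matchingPolytope G)) K)),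
      Ideal.span S = toricIdeal K (matchingPolytope G) → ∃ p ∈ S, 5 ≤ p.totalDegree := by
  refine ⟨G, fun K _ S hS => ?_⟩
  have hne : vv ≠ uu := by
    intro h
    have h0 := DFunLike.congr_fun h (pt 0)
    rw [uu_pt, vv_pt] at h0
    exact absurd h0 (by decide)
  obtain ⟨p, hp, hdeg⟩ := exists_degree_ge uu vv img_uu_eq hne
    (fun m hm1 hm2 m' h => isolated m hm1 hm2 m' h) S hS
  refine ⟨p, hp, le_trans ?_ hdeg⟩
  rw [sum_eq uu uu_supp (fun _ n => n) (fun _ => rfl)]
  simp only [uu_pt]
  decide

end Pool.Agent.Results.MP_2a9801_co.QuinticGenerator
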